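import Pool.Agent.BOX.StmtsG

/-!
# Squad BOX (MP_be01ff_an), row EVT: evaluation of the phases
-/

set_option autoImplicit false

noncomputable section

namespace Pool.Agent.BOX.H5

open Pool.Agent.BOX

theorem evt : EvtStmt := by
  intro P Q _ _ θ F G H hF hG hH t k
  obtain ⟨e, he⟩ : ∃ e : P → ℂ, ∀ p, e p = Complex.exp (Complex.I * ((θ p * t : ℝ) : ℂ)) :=
    ⟨_, fun _ => rfl⟩
  have hadd : ∀ p q, e (p + q) = e p * e q := by
    intro p q
    rw [he, he, he, ← Complex.exp_add, map_add]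
    congr 1
    push_cast
    ring
  have hnorm : ∀ p, ‖e p‖ = 1 := by
    intro p
    rw [he, Complex.norm_exp]
    simp
  have hev : ∀ (K : P × Q → ℂ) (q : Q), ev θ K t q = ∑' p : P, K (p, q) * e p := by
    intro K q
    unfold ev
    simp only [he]
  have hs : ∀ K : P × Q → ℂ, (Summable fun g => ‖K g‖) →
      Summable fun g : P × Q => ‖K g * e g.1‖ := by
    intro K hK
    simpa only [norm_mul, hnorm, mul_one] using hK
  have hF1 := hs F hF
  have hG1 := hs G hG
  have hH1 := hs H hH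
  let Ψ : (P × Q) × ((P × Q) × (P × Q)) → ℂ := fun x =>
    (F x.1 * e x.1.1) * ((G x.2.1 * e x.2.1.1) * (H x.2.2 * e x.2.2.1))
  have hΨ : Summable Ψ := by
    have h2 := hG1.mul_norm hH1
    have h3 := hF1.mul_norm h2
    exact h3.of_norm
  let j : (P × Q) × ((P × Q) × P) → (P × Q) × ((P × Q) × (P × Q)) := fun x =>
    (x.1, (x.2.1, (x.2.2, k - x.1.2 - x.2.1.2)))
  have hj : Function.Injective j := by
    rintro ⟨a, b, c⟩ ⟨a', b', c'⟩ h
    simp only [j, Prod.mk.injEq] at h
    obtain ⟨h1, h2, h3, _⟩ := h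
    rw [h1, h2, h3]
  let Φ : (P × Q) × ((P × Q) × P) → ℂ := fun x => Ψ (j x)
  have hΦ : Summable Φ := hΨ.comp_injective hj
  -- left side
  let eL : (Q × Q) × (P × (P × P)) ≃ (P × Q) × ((P × Q) × P) :=
    { toFun := fun x => ((x.2.1, x.1.1), ((x.2.2.1, x.1.2), x.2.2.2))
      invFun := fun y => ((y.1.2, y.2.1.2), (y.1.1, (y.2.1.1, y.2.2)))
      left_inv := fun x => rfl
      right_inv := fun y => rfl }
  have hΦL : Summable fun x => Φ (eL x) := eL.summable_iff.2 hΦ
  have hcF : ∀ q : Q, Summable fun p : P => ‖F (p, q) * e p‖ := fun q =>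
    hF1.comp_injective (i := fun p : P => (p, q)) (fun a b h => (Prod.mk.inj h).1)
  have hcG : ∀ q : Q, Summable fun p : P => ‖G (p, q) * e p‖ := fun q =>
    hG1.comp_injective (i := fun p : P => (p, q)) (fun a b h => (Prod.mk.inj h).1)
  have hcH : ∀ q : Q, Summable fun p : P => ‖H (p, q) * e p‖ := fun q =>
    hH1.comp_injective (i := fun p : P => (p, q)) (fun a b h => (Prod.mk.inj h).1)
  have hL : T3 (ev θ F t) (ev θ G t) (ev θ H t) k = ∑' x, Φ x := by
    rw [← eL.tsum_eq Φ, hΦL.tsum_prod]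
    unfold T3
    refine tsum_congr fun h => ?_
    rw [hev, hev, hev, mul_assoc, tsum_mul_tsum_of_summable_norm (hcG _) (hcH _),
      tsum_mul_tsum_of_summable_norm (hcF _) ((hcG _).mul_norm (hcH _))]
    rfl
  -- right side
  let eR : P × ((P × Q) × (P × Q)) ≃ (P × Q) × ((P × Q) × P) :=
    { toFun := fun x => (x.2.1, (x.2.2, x.1 - x.2.1.1 - x.2.2.1))
      invFun := fun y => (y.2.2 + y.2.1.1 + y.1.1, (y.1, y.2.1))
      left_inv := by
        rintro ⟨p, h1, h2⟩
        simp only [Prod.mk.injEq, and_true]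
        abel
      right_inv := by
        rintro ⟨h1, h2, p⟩
        simp only [Prod.mk.injEq, true_and]
        abel }
  have hΦR : Summable fun x => Φ (eR x) := eR.summable_iff.2 hΦ
  have hR : ev θ (T3 F G H) t k = ∑' x, Φ x := by
    rw [← eR.tsum_eq Φ, hΦR.tsum_prod, hev]
    unfold T3
    refine tsum_congr fun p => ?_
    rw [← tsum_mul_right]
    refine tsum_congr fun h => ?_
    show F h.1 * G h.2 * H ((p, k) - h.1 - h.2) * e p =
      (F h.1 * e h.1.1) * ((G h.2 * e h.2.1) *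
        (H (p - h.1.1 - h.2.1, k - h.1.2 - h.2.2) * e (p - h.1.1 - h.2.1)))
    have h1 : ((p, k) : P × Q) - h.1 - h.2 = (p - h.1.1 - h.2.1, k - h.1.2 - h.2.2) := rfl
    have h2 : e p = e (p - h.1.1 - h.2.1) * e h.2.1 * e h.1.1 := by
      rw [← hadd, ← hadd]
      congr 1
      abel
    rw [h1, h2]
    ring
  rw [hL, hR]

end Pool.Agent.BOX.H5
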