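import Pool.Agent.BOX.StmtsG

/-!
# Squad BOX (MP_be01ff_an), row RSB: the bounds for the approximate solution
-/

set_option autoImplicit false

noncomputable section

namespace Pool.Agent.BOX.H5

open Pool.Agent.BOX Set Filter Topology

theorem wt_full {P Q : Type} [AddCommGroup P] [AddCommGroup Q] (θ : P →+ ℝ) (w : Q → ℝ)
    (hw : Wt w) : Wt (fun g : P × Q => (1 + |θ g.1|) * w g.2) := by
  have hpos : ∀ k, 0 < w k := fun k => lt_of_lt_of_le one_pos (hw.1 k)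
  constructor
  · intro g
    have h1 : (1 : ℝ) ≤ 1 + |θ g.1| := by
      have := abs_nonneg (θ g.1)
      linarith
    have h2 := hw.1 g.2
    nlinarith
  · intro g h
    have h1 : (1 : ℝ) + |θ (g + h).1| ≤ (1 + |θ g.1|) * (1 + |θ h.1|) := by
      have h2 : |θ (g + h).1| ≤ |θ g.1| + |θ h.1| := by
        rw [Prod.fst_add, map_add]
        exact abs_add_le _ _
      have h3 := mul_nonneg (abs_nonneg (θ g.1)) (abs_nonneg (θ h.1))
      nlinarith
    have h2 : w (g + h).2 ≤ w g.2 * w h.2 := hw.2 g.2 h.2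
    have h4 : (0 : ℝ) ≤ (1 + |θ g.1|) * (1 + |θ h.1|) := by positivity
    calc (1 + |θ (g + h).1|) * w (g + h).2
        ≤ ((1 + |θ g.1|) * (1 + |θ h.1|)) * (w g.2 * w h.2) :=
          mul_le_mul h1 h2 (hpos _).le h4
      _ = (1 + |θ g.1|) * w g.2 * ((1 + |θ h.1|) * w h.2) := by ring

theorem sm_vp {P Q : Type} [AddCommGroup P] [AddCommGroup Q] (θ : P →+ ℝ) (w : Q → ℝ)
    (hw : Wt w) (F : P × Q → ℂ) (hF : Sm (fun g : P × Q => (1 + |θ g.1|) * w g.2) F) :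
    Sm (fun g : P × Q => (1 + |θ g.1|) * w g.2) (Vp F) := by
  have hpos : ∀ k, 0 < w k := fun k => lt_of_lt_of_le one_pos (hw.1 k)
  let e : P × Q ≃ P × Q :=
    { toFun := fun g => (-g.1, g.2)
      invFun := fun g => (-g.1, g.2)
      left_inv := fun g => by simp
      right_inv := fun g => by simp }
  have h1 : Summable fun g : P × Q => ‖F g‖ * ((1 + |θ g.1|) * w g.2) := hF
  have h2 : Summable fun g : P × Q => ‖F (e g)‖ * ((1 + |θ (e g).1|) * w (e g).2) :=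
    (e.summable_iff (f := fun g : P × Q => ‖F g‖ * ((1 + |θ g.1|) * w g.2))).mpr h1
  have h3 : Summable fun g : P × Q => ‖F (-g.1, g.2)‖ * ((1 + |θ g.1|) * w g.2) := by
    refine h2.congr fun g => ?_
    simp only [e, Equiv.coe_fn_mk, map_neg, abs_neg]
  have h4 := (h1.add h3).mul_left (1 / 2)
  refine Summable.of_nonneg_of_le (fun g => ?_) (fun g => ?_) h4
  · exact mul_nonneg (norm_nonneg _) (mul_nonneg (by positivity) (hpos _).le)
  · have h5 : ‖Vp F g‖ ≤ 1 / 2 * (‖F g‖ + ‖F (-g.1, g.2)‖) := by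
      unfold Vp
      rw [norm_div]
      have h6 : ‖F g + (starRingEnd ℂ) (F (-g.1, g.2))‖ ≤ ‖F g‖ + ‖F (-g.1, g.2)‖ := by
        refine (norm_add_le _ _).trans ?_
        rw [RCLike.norm_conj]
      have h7 : ‖(2 : ℂ)‖ = 2 := by simp
      rw [h7]
      linarith
    have h8 : 0 ≤ (1 + |θ g.1|) * w g.2 := mul_nonneg (by positivity) (hpos _).le
    calc ‖Vp F g‖ * ((1 + |θ g.1|) * w g.2)
        ≤ (1 / 2 * (‖F g‖ + ‖F (-g.1, g.2)‖)) * ((1 + |θ g.1|) * w g.2) :=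
          mul_le_mul_of_nonneg_right h5 h8
      _ = _ := by ring

theorem amp_le (β : ℕ → ℝ) (K : ℕ) (t1 : ℝ) (A : ℝ → ℝ) (hA : Amp β K t1 A)
    (s : ℝ) (hs0 : 0 < s) (hs : 1 / (2 * β 1) < s ^ 2) :
    ∃ T : ℝ, t1 ≤ T ∧ ∀ t > T, A t ≤ s * t ^ (-(1 / 2) : ℝ) := by
  have h1 : ∀ᶠ t in atTop, t * A t ^ 2 < s ^ 2 := hA.2.2.eventually (gt_mem_nhds hs)
  obtain ⟨T0, hT0⟩ := eventually_atTop.mp h1
  refine ⟨max t1 T0, le_max_left _ _, fun t ht => ?_⟩
  have ht1 : t1 < t := lt_of_le_of_lt (le_max_left _ _) ht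
  have ht0 : T0 ≤ t := ((le_max_right _ _).trans_lt ht).le
  have htp : 0 < t := by
    have := hA.1
    linarith
  have h2 := hT0 t ht0
  have hx : 0 < t ^ (-(1 / 2) : ℝ) := Real.rpow_pos_of_pos htp _
  have hx2 : t * (t ^ (-(1 / 2) : ℝ)) ^ 2 = 1 := by
    rw [← Real.rpow_natCast, ← Real.rpow_mul htp.le]
    have : (-(1 / 2) : ℝ) * ((2 : ℕ) : ℝ) = -1 := by push_cast; ring
    rw [this, Real.rpow_neg_one]
    exact mul_inv_cancel₀ htp.ne'
  by_contra hcon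
  push Not at hcon
  have h3 : (s * t ^ (-(1 / 2) : ℝ)) ^ 2 < A t ^ 2 :=
    pow_lt_pow_left₀ hcon (mul_pos hs0 hx).le (by norm_num)
  have h4 : t * (s * t ^ (-(1 / 2) : ℝ)) ^ 2 < t * A t ^ 2 := mul_lt_mul_of_pos_left h3 htp
  have h5 : t * (s * t ^ (-(1 / 2) : ℝ)) ^ 2 = s ^ 2 := by
    calc t * (s * t ^ (-(1 / 2) : ℝ)) ^ 2 = s ^ 2 * (t * (t ^ (-(1 / 2) : ℝ)) ^ 2) := by ring
      _ = s ^ 2 := by rw [hx2, mul_one]
  linarith

theorem rpow_half (t : ℝ) (ht : 0 < t) (m : ℕ) (y : ℝ) (hy : y = -((m : ℝ) / 2)) :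
    (t ^ (-(1 / 2) : ℝ)) ^ m = t ^ y := by
  rw [← Real.rpow_natCast, ← Real.rpow_mul ht.le, hy]
  congr 1
  ring

theorem rsb (t3a : T3aStmt) (evd : EvdStmt) (_evr : EvrStmt) : RsbStmt := by
  intro P Q _ _ θ w K W β A t1 hw hK hW hβ hA
  have hwp : ∀ k, 0 < w k := fun k => lt_of_lt_of_le one_pos (hw.1 k)
  have hT3 : ∀ a ≤ K, ∀ b ≤ K, ∀ c ≤ K, Sm (fun g : P × Q => (1 + |θ g.1|) * w g.2)
      (T3 (Vp (W a)) (Vp (W b)) (Vp (W c))) := fun a ha b hb c hc =>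
    (t3a (P × Q) ℂ _ _ _ _ (wt_full θ w hw) (sm_vp θ w hw _ (hW a ha))
      (sm_vp θ w hw _ (hW b hb)) (sm_vp θ w hw _ (hW c hc))).2.1
  -- norms of the fibres
  obtain ⟨N, hN⟩ : ∃ N : (P × Q → ℂ) → Q → ℝ, ∀ F k, N F k = ∑' p, ‖F (p, k)‖ :=
    ⟨_, fun _ _ => rfl⟩
  have hN0 : ∀ F k, 0 ≤ N F k := fun F k => by
    rw [hN]
    exact tsum_nonneg fun p => norm_nonneg _
  have hNs : ∀ F, Sm (fun g : P × Q => (1 + |θ g.1|) * w g.2) F →
      Summable fun k => N F k * w k := fun F hF => by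
    simp only [hN]
    exact (evd P Q θ w F hw.1 hF).2.1
  have hNt : ∀ F, Sm (fun g : P × Q => (1 + |θ g.1|) * w g.2) F →
      ∑' k, N F k * w k = ∑' g, ‖F g‖ * w g.2 := fun F hF => by
    simp only [hN]
    exact (evd P Q θ w F hw.1 hF).2.2.1
  have hNe : ∀ F, Sm (fun g : P × Q => (1 + |θ g.1|) * w g.2) F →
      ∀ t k, ‖ev θ F t k‖ ≤ N F k := fun F hF t k => by
    rw [hN]
    exact (evd P Q θ w F hw.1 hF).2.2.2.1 t k
  have hNc : ∀ F, Sm (fun g : P × Q => (1 + |θ g.1|) * w g.2) F →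
      ∀ k, Continuous fun t => ev θ F t k := fun F hF k =>
    (evd P Q θ w F hw.1 hF).2.2.2.2.1 k
  have hNk : ∀ F, Sm (fun g : P × Q => (1 + |θ g.1|) * w g.2) F →
      ∀ k, N F k ≤ ∑' k, N F k * w k := fun F hF k => by
    have h1 : N F k * w k ≤ ∑' k, N F k * w k :=
      (hNs F hF).le_tsum k fun j _ => mul_nonneg (hN0 F j) (hwp j).le
    have h2 : N F k ≤ N F k * w k := le_mul_of_one_le_right (hN0 F k) (hw.1 k)
    exact h2.trans h1
  -- total norms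
  obtain ⟨n, hn⟩ : ∃ n : ℕ → ℝ, ∀ j, n j = ∑' k, N (W j) k * w k := ⟨_, fun _ => rfl⟩
  have hn0 : ∀ j, 0 ≤ n j := fun j => by
    rw [hn]
    exact tsum_nonneg fun k => mul_nonneg (hN0 _ _) (hwp k).le
  have hS0 : 0 ≤ ∑ j ∈ Finset.Icc 1 K, n j := Finset.sum_nonneg fun j _ => hn0 j
  -- the constant
  have hL : 0 < 1 / (2 * β 1) := by positivity
  obtain ⟨ε, hε⟩ : ∃ ε : ℝ, ε = 1 / (2 * (n 0 + 1)) := ⟨_, rfl⟩
  have hε0 : 0 < ε := by
    rw [hε]
    have := hn0 0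
    positivity
  obtain ⟨s, hs⟩ : ∃ s : ℝ, s = Real.sqrt (1 / (2 * β 1)) + ε := ⟨_, rfl⟩
  have hs0 : 0 < s := by
    rw [hs]
    have := Real.sqrt_nonneg (1 / (2 * β 1))
    linarith
  have hs2 : 1 / (2 * β 1) < s ^ 2 := by
    have h1 : Real.sqrt (1 / (2 * β 1)) < s := by rw [hs]; linarith
    exact (Real.sqrt_lt' hs0).mp h1
  obtain ⟨T, hT1, hT⟩ := amp_le β K t1 A hA s hs0 hs2
  obtain ⟨t2, ht2⟩ : ∃ t2 : ℝ, t2 = max T (2 * (s ^ 3 * ∑ j ∈ Finset.Icc 1 K, n j)) :=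
    ⟨_, rfl⟩
  have h12 : t1 ≤ t2 := by
    rw [ht2]
    exact hT1.trans (le_max_left _ _)
  have hT2 : T ≤ t2 := by
    rw [ht2]
    exact le_max_left _ _
  have h2b : 2 * (s ^ 3 * ∑ j ∈ Finset.Icc 1 K, n j) ≤ t2 := by
    rw [ht2]
    exact le_max_right _ _
  have ht2p : 1 ≤ t2 := hA.1.trans h12
  have ht2q : 0 < t2 := lt_of_lt_of_le one_pos ht2p
  -- facts on `A`
  have hAp : ∀ t > t2, 0 < A t := fun t ht => (hA.2.1 t (lt_of_le_of_lt h12 ht)).1
  have hA1 : ∀ t > t2, A t ≤ 1 := fun t ht => (hA.2.1 t (lt_of_le_of_lt h12 ht)).2.1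
  have htp : ∀ t > t2, 0 < t := fun t ht => lt_trans ht2q ht
  have hAs : ∀ t > t2, A t ≤ s * t ^ (-(1 / 2) : ℝ) := fun t ht =>
    hT t (lt_of_le_of_lt hT2 ht)
  have hApow : ∀ t > t2, ∀ m m' : ℕ, m ≤ m' → ∀ y : ℝ, y = -((m : ℝ) / 2) →
      A t ^ m' ≤ s ^ m * t ^ y := by
    intro t ht m m' hm y hy
    calc A t ^ m' ≤ A t ^ m := pow_le_pow_of_le_one (hAp t ht).le (hA1 t ht) hm
      _ ≤ (s * t ^ (-(1 / 2) : ℝ)) ^ m := pow_le_pow_left₀ (hAp t ht).le (hAs t ht) m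
      _ = s ^ m * t ^ y := by rw [mul_pow, rpow_half t (htp t ht) m y hy]
  have hAc : ContinuousOn A (Ioi t2) := fun t ht =>
    (hA.2.1 t (lt_of_le_of_lt h12 ht)).2.2.continuousAt.continuousWithinAt
  have hmem : ∀ j ∈ Finset.range (K + 1), j ≤ K := fun j hj => by
    have := Finset.mem_range.mp hj
    omega
  -- splitting `cur`
  have hcur : ∀ k t, cur θ W A K k t = (A t : ℂ) * ev θ (W 0) t k +
      ∑ j ∈ Finset.Icc 1 K, ((A t : ℝ) : ℂ) ^ (2 * j + 1) * ev θ (W j) t k := by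
    intro k t
    unfold cur
    rw [Finset.range_eq_Ico, Finset.sum_eq_sum_Ico_succ_bot (by omega)]
    have h1 : Finset.Ico (0 + 1) (K + 1) = Finset.Icc 1 K := by
      ext j
      simp only [Finset.mem_Ico, Finset.mem_Icc]
      omega
    rw [h1]
    simp
  have hnA : ∀ t > t2, ∀ m : ℕ, ‖((A t : ℝ) : ℂ) ^ m‖ = A t ^ m := by
    intro t ht m
    rw [norm_pow, Complex.norm_real, Real.norm_of_nonneg (hAp t ht).le]
  have htail : ∀ k, ∀ t > t2,
      ‖∑ j ∈ Finset.Icc 1 K, ((A t : ℝ) : ℂ) ^ (2 * j + 1) * ev θ (W j) t k‖ ≤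
      s ^ 3 * t ^ (-(3 / 2) : ℝ) * ∑ j ∈ Finset.Icc 1 K, N (W j) k := by
    intro k t ht
    rw [Finset.mul_sum]
    refine norm_sum_le_of_le _ fun j hj => ?_
    rw [Finset.mem_Icc] at hj
    rw [norm_mul, hnA t ht]
    exact mul_le_mul (hApow t ht 3 (2 * j + 1) (by omega) _ (by push_cast; ring))
      (hNe (W j) (hW j hj.2) t k) (norm_nonneg _)
      (mul_nonneg (by positivity) (Real.rpow_nonneg (htp t ht).le _))
  -- the families
  refine ⟨t2, fun k => s * N (W 0) k + s ^ 3 * t2⁻¹ * ∑ j ∈ Finset.Icc 1 K, N (W j) k,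
    fun k => s ^ (2 * K + 3) * ((∑ a ∈ Finset.range (K + 1), ∑ b ∈ Finset.range (K + 1),
      ∑ c ∈ Finset.range (K + 1), N (T3 (Vp (W a)) (Vp (W b)) (Vp (W c))) k) +
      ∑ j ∈ Finset.range (K + 1), ∑ i ∈ Finset.Icc 1 K, |β i * (2 * j + 1)| * N (W j) k),
    s ^ 3 * ∑ j ∈ Finset.Icc 1 K, n j, h12, ?_, ?_, ?_, ?_, ?_, ?_, ?_⟩
  · -- summability of `b`
    have h1 : ∀ k, (s * N (W 0) k + s ^ 3 * t2⁻¹ * ∑ j ∈ Finset.Icc 1 K, N (W j) k) * w k =
        s * (N (W 0) k * w k) + s ^ 3 * t2⁻¹ * ∑ j ∈ Finset.Icc 1 K, N (W j) k * w k := by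
      intro k
      rw [add_mul, mul_assoc s, mul_assoc (s ^ 3 * t2⁻¹), Finset.sum_mul]
    simp only [h1]
    refine ((hNs (W 0) (hW 0 (Nat.zero_le _))).mul_left s).add (Summable.mul_left _ ?_)
    exact summable_sum fun j hj => hNs (W j) (hW j (Finset.mem_Icc.mp hj).2)
  · -- summability of `c`
    have h1 : ∀ k, (s ^ (2 * K + 3) * ((∑ a ∈ Finset.range (K + 1), ∑ b ∈ Finset.range (K + 1),
      ∑ c ∈ Finset.range (K + 1), N (T3 (Vp (W a)) (Vp (W b)) (Vp (W c))) k) +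
      ∑ j ∈ Finset.range (K + 1), ∑ i ∈ Finset.Icc 1 K,
        |β i * (2 * j + 1)| * N (W j) k)) * w k =
        s ^ (2 * K + 3) * ((∑ a ∈ Finset.range (K + 1), ∑ b ∈ Finset.range (K + 1),
      ∑ c ∈ Finset.range (K + 1), N (T3 (Vp (W a)) (Vp (W b)) (Vp (W c))) k * w k) +
      ∑ j ∈ Finset.range (K + 1), ∑ i ∈ Finset.Icc 1 K,
        |β i * (2 * j + 1)| * (N (W j) k * w k)) := by
      intro k
      rw [mul_assoc, add_mul]
      simp only [Finset.sum_mul, mul_assoc]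
    simp only [h1]
    refine Summable.mul_left _ (Summable.add ?_ ?_)
    · exact summable_sum fun a ha => summable_sum fun b hb => summable_sum fun c hc =>
        hNs _ (hT3 a (hmem a ha) b (hmem b hb) c (hmem c hc))
    · exact summable_sum fun j hj => summable_sum fun i _ =>
        (hNs _ (hW j (hmem j hj))).mul_left _
  · -- the sum of `b`
    have h1 : ∀ k, (s * N (W 0) k + s ^ 3 * t2⁻¹ * ∑ j ∈ Finset.Icc 1 K, N (W j) k) * w k =
        s * (N (W 0) k * w k) + s ^ 3 * t2⁻¹ * ∑ j ∈ Finset.Icc 1 K, N (W j) k * w k := by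
      intro k
      rw [add_mul, mul_assoc s, mul_assoc (s ^ 3 * t2⁻¹), Finset.sum_mul]
    simp only [h1]
    have h2 : ∀ j ∈ Finset.Icc 1 K, Summable fun k => N (W j) k * w k := fun j hj =>
      hNs (W j) (hW j (Finset.mem_Icc.mp hj).2)
    rw [Summable.tsum_add ((hNs (W 0) (hW 0 (Nat.zero_le _))).mul_left s)
      (Summable.mul_left _ (summable_sum h2)), tsum_mul_left, tsum_mul_left,
      Summable.tsum_finsetSum h2]
    have h3 : ∑ j ∈ Finset.Icc 1 K, ∑' k, N (W j) k * w k = ∑ j ∈ Finset.Icc 1 K, n j :=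
      Finset.sum_congr rfl fun j _ => (hn j).symm
    rw [h3, ← hNt (W 0) (hW 0 (Nat.zero_le _)), ← hn 0]
    have h4 : s * n 0 ≤ Real.sqrt (1 / (2 * β 1)) * n 0 + 1 / 2 := by
      have h5 : ε * n 0 ≤ 1 / 2 := by
        rw [hε, div_mul_eq_mul_div, div_le_div_iff₀ (by have := hn0 0; positivity) (by norm_num)]
        have := hn0 0
        nlinarith
      rw [hs, add_mul]
      linarith
    have h6 : s ^ 3 * t2⁻¹ * ∑ j ∈ Finset.Icc 1 K, n j ≤ 1 / 2 := by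
      have h7 : s ^ 3 * t2⁻¹ * ∑ j ∈ Finset.Icc 1 K, n j =
          (s ^ 3 * ∑ j ∈ Finset.Icc 1 K, n j) / t2 := by
        rw [div_eq_mul_inv]
        ring
      rw [h7, div_le_iff₀ ht2q]
      linarith
    linarith
  · -- the bound of `cur`
    intro k t ht
    rw [hcur]
    have hx : 0 ≤ t ^ (-(1 / 2) : ℝ) := Real.rpow_nonneg (htp t ht).le _
    have h1 : ‖(A t : ℂ) * ev θ (W 0) t k‖ ≤ s * N (W 0) k * t ^ (-(1 / 2) : ℝ) := by
      rw [norm_mul, Complex.norm_real, Real.norm_of_nonneg (hAp t ht).le]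
      calc A t * ‖ev θ (W 0) t k‖ ≤ (s * t ^ (-(1 / 2) : ℝ)) * N (W 0) k :=
            mul_le_mul (hAs t ht) (hNe (W 0) (hW 0 (Nat.zero_le _)) t k) (norm_nonneg _)
              (mul_nonneg hs0.le hx)
        _ = _ := by ring
    have h2 := htail k t ht
    have h3 : t ^ (-(3 / 2) : ℝ) ≤ t2⁻¹ * t ^ (-(1 / 2) : ℝ) := by
      have h4 : t ^ (-(3 / 2) : ℝ) = t⁻¹ * t ^ (-(1 / 2) : ℝ) := by
        rw [← Real.rpow_neg_one t, ← Real.rpow_add (htp t ht)]
        congr 1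
        norm_num
      rw [h4]
      exact mul_le_mul_of_nonneg_right (inv_anti₀ ht2q (le_of_lt ht)) hx
    have h5 : 0 ≤ ∑ j ∈ Finset.Icc 1 K, N (W j) k := Finset.sum_nonneg fun j _ => hN0 _ _
    have h6 : s ^ 3 * t ^ (-(3 / 2) : ℝ) * ∑ j ∈ Finset.Icc 1 K, N (W j) k ≤
        s ^ 3 * (t2⁻¹ * t ^ (-(1 / 2) : ℝ)) * ∑ j ∈ Finset.Icc 1 K, N (W j) k :=
      mul_le_mul_of_nonneg_right (mul_le_mul_of_nonneg_left h3 (by positivity)) h5
    calc _ ≤ s * N (W 0) k * t ^ (-(1 / 2) : ℝ) +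
          s ^ 3 * (t2⁻¹ * t ^ (-(1 / 2) : ℝ)) * ∑ j ∈ Finset.Icc 1 K, N (W j) k :=
          (norm_add_le _ _).trans (add_le_add h1 (h2.trans h6))
      _ = _ := by ring
  · -- the bound of `rem`
    intro k t ht
    have hy : 0 ≤ s ^ (2 * K + 3) * t ^ (-((K : ℝ) + 3 / 2)) :=
      mul_nonneg (by positivity) (Real.rpow_nonneg (htp t ht).le _)
    have hpw : ∀ m : ℕ, 2 * K + 3 ≤ m → A t ^ m ≤ s ^ (2 * K + 3) * t ^ (-((K : ℝ) + 3 / 2)) :=
      fun m hm => hApow t ht (2 * K + 3) m hm _ (by push_cast; ring)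
    have hA0 : 0 ≤ A t := (hAp t ht).le
    have h1 : ‖∑ a ∈ Finset.range (K + 1), ∑ b ∈ Finset.range (K + 1),
        ∑ c ∈ Finset.range (K + 1),
        if K ≤ a + b + c then ((A t ^ (2 * (a + b + c) + 3) : ℝ) : ℂ) *
          ev θ (T3 (Vp (W a)) (Vp (W b)) (Vp (W c))) t k else 0‖ ≤
        ∑ a ∈ Finset.range (K + 1), ∑ b ∈ Finset.range (K + 1),
        ∑ c ∈ Finset.range (K + 1), s ^ (2 * K + 3) * t ^ (-((K : ℝ) + 3 / 2)) *
          N (T3 (Vp (W a)) (Vp (W b)) (Vp (W c))) k := by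
      refine norm_sum_le_of_le _ fun a ha => norm_sum_le_of_le _ fun b hb =>
        norm_sum_le_of_le _ fun c hc => ?_
      split_ifs with h
      · rw [norm_mul, Complex.norm_real, Real.norm_of_nonneg (pow_nonneg hA0 _)]
        exact mul_le_mul (hpw _ (by omega))
          (hNe _ (hT3 a (hmem a ha) b (hmem b hb) c (hmem c hc)) t k) (norm_nonneg _) hy
      · rw [norm_zero]
        exact mul_nonneg hy (hN0 _ _)
    have h2 : ‖∑ j ∈ Finset.range (K + 1), ∑ i ∈ Finset.Icc 1 K,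
        if K < i + j then ((β i * (2 * j + 1) * A t ^ (2 * (i + j) + 1) : ℝ) : ℂ) *
          ev θ (W j) t k else 0‖ ≤
        ∑ j ∈ Finset.range (K + 1), ∑ i ∈ Finset.Icc 1 K,
          |β i * (2 * j + 1)| * (s ^ (2 * K + 3) * t ^ (-((K : ℝ) + 3 / 2))) * N (W j) k := by
      refine norm_sum_le_of_le _ fun j hj => norm_sum_le_of_le _ fun i hi => ?_
      split_ifs with h
      · rw [norm_mul, Complex.norm_real, Real.norm_eq_abs, abs_mul (β i * (2 * (j : ℝ) + 1)),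
          abs_of_nonneg (pow_nonneg hA0 (2 * (i + j) + 1))]
        refine mul_le_mul ?_ (hNe _ (hW j (hmem j hj)) t k) (norm_nonneg _)
          (mul_nonneg (abs_nonneg _) hy)
        exact mul_le_mul_of_nonneg_left (hpw _ (by omega)) (abs_nonneg _)
      · rw [norm_zero]
        exact mul_nonneg (mul_nonneg (abs_nonneg _) hy) (hN0 _ _)
    have h3 : ‖rem θ W β A K k t‖ ≤ _ := (norm_sub_le _ _).trans (add_le_add h1 h2)
    refine h3.trans (le_of_eq ?_)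
    simp only [Finset.mul_sum, mul_add, add_mul, Finset.sum_mul]
    congr 1
    · refine Finset.sum_congr rfl fun a _ => Finset.sum_congr rfl fun b _ =>
        Finset.sum_congr rfl fun c _ => ?_
      ring
    · refine Finset.sum_congr rfl fun j _ => Finset.sum_congr rfl fun i _ => ?_
      ring
  · -- continuity
    intro k
    have hcA : ∀ m : ℕ, ContinuousOn (fun t => ((A t ^ m : ℝ) : ℂ)) (Ioi t2) := fun m =>
      Complex.continuous_ofReal.comp_continuousOn (hAc.pow m)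
    unfold rem
    refine ContinuousOn.sub ?_ ?_
    · refine continuousOn_finsetSum _ fun a ha => continuousOn_finsetSum _ fun b hb =>
        continuousOn_finsetSum _ fun c hc => ?_
      by_cases h : K ≤ a + b + c
      · simp only [if_pos h]
        exact (hcA _).mul
          (hNc _ (hT3 a (hmem a ha) b (hmem b hb) c (hmem c hc)) k).continuousOn
      · simp only [if_neg h]
        exact continuousOn_const
    · refine continuousOn_finsetSum _ fun j hj => continuousOn_finsetSum _ fun i hi => ?_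
      by_cases h : K < i + j
      · simp only [if_pos h]
        refine ContinuousOn.mul ?_ (hNc _ (hW j (hmem j hj)) k).continuousOn
        exact Complex.continuous_ofReal.comp_continuousOn
          (continuousOn_const.mul (hAc.pow _))
      · simp only [if_neg h]
        exact continuousOn_const
  · -- the first term
    intro k t ht
    rw [hcur, add_sub_cancel_left]
    refine (htail k t ht).trans ?_
    have h1 : ∑ j ∈ Finset.Icc 1 K, N (W j) k ≤ ∑ j ∈ Finset.Icc 1 K, n j := by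
      refine Finset.sum_le_sum fun j hj => ?_
      rw [hn]
      exact hNk (W j) (hW j (Finset.mem_Icc.mp hj).2) k
    have h2 : 0 ≤ s ^ 3 * t ^ (-(3 / 2) : ℝ) :=
      mul_nonneg (by positivity) (Real.rpow_nonneg (htp t ht).le _)
    calc s ^ 3 * t ^ (-(3 / 2) : ℝ) * ∑ j ∈ Finset.Icc 1 K, N (W j) k
        ≤ s ^ 3 * t ^ (-(3 / 2) : ℝ) * ∑ j ∈ Finset.Icc 1 K, n j :=
          mul_le_mul_of_nonneg_left h1 h2
      _ = _ := by ring

end Pool.Agent.BOX.H5
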